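import Mathlib

namespace Pool.Agent.Results.MP_6ac4e5_co.TwoChains

open Finset

def x (m i : ℕ) : ℕ := ∑ t ∈ range i, (m - 1 - t)

def S (m i : ℕ) : Finset ℕ := range (x m i) ∪ Ico (x m m) (x m m + (m - 1 - i))

lemma mono (m i j : ℕ) (h : i ≤ j) : x m i ≤ x m j :=
  sum_le_sum_of_subset (range_mono h)

lemma inter (m i j : ℕ) (h : i < j) (hj : j < m) :
    (S m i ∩ S m j).card = x m i + (m - 1 - j) := by
  have a1 := mono m i j h.le
  have a2 := mono m j m hj.le
  have : S m i ∩ S m j = range (x m i) ∪ Ico (x m m) (x m m + (m - 1 - j)) := by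
    ext a
    simp only [S, mem_inter, mem_union, mem_range, mem_Ico]
    omega
  rw [this, card_union_of_disjoint]
  · simp
  · rw [disjoint_left]
    intro a h1 h2
    simp only [mem_range, mem_Ico] at h1 h2
    omega

theorem result (m n : ℕ) (h : m * (m + 1) ≤ 2 * n + 2) : ∃ A : ℕ → Finset ℕ,
    (∀ i < m, A i ⊆ range n) ∧ (∀ i < m, ∀ j < m, A i = A j → i = j) ∧
    ∀ i j k l : ℕ, i < j → j < m → k < l → l < m →
      (A i ∩ A j).card = (A k ∩ A l).card → i = k ∧ j = l := by
  have hc : x m m * 2 = m * (m - 1) := by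
    unfold x
    rw [sum_range_reflect (fun t => t) m, sum_range_id_mul_two]
  refine ⟨S m, fun i hi a ha => ?_, fun i hi j hj e => ?_, fun i j k l h1 h2 h3 h4 e => ?_⟩
  · have a1 := mono m i m hi.le
    obtain ⟨r, rfl⟩ : ∃ r, m = r + 1 := ⟨m - 1, by omega⟩
    simp only [S, mem_union, mem_range, mem_Ico, Nat.add_sub_cancel] at ha hc ⊢
    have : x (r + 1) (r + 1) + r ≤ n := by nlinarith
    omega
  · have a1 := mono m i m hi.le
    have a2 := mono m j m hj.le
    have e1 := Finset.ext_iff.1 e (x m m + (m - 1 - i))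
    have e2 := Finset.ext_iff.1 e (x m m + (m - 1 - j))
    simp only [S, mem_union, mem_range, mem_Ico] at e1 e2
    omega
  · rw [inter m i j h1 h2, inter m k l h3 h4] at e
    have s1 : x m (i + 1) = x m i + (m - 1 - i) := sum_range_succ _ _
    have s2 : x m (k + 1) = x m k + (m - 1 - k) := sum_range_succ _ _
    rcases lt_trichotomy i k with g | g | g
    · have := mono m (i + 1) k g; omega
    · subst g; omega
    · have := mono m (k + 1) i g; omega

end Pool.Agent.Results.MP_6ac4e5_co.TwoChains
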